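import Pool.Agent.Work.MP_91103f_lv.Interface

namespace Pool.TriLev.helper53

open Pool.Agent.Work.MP_91103f_co Pool.TriLev

open Classical

noncomputable section

theorem stmt_LV (hD : Stmt_DESC) (hP : Stmt_POLY) (hS : Stmt_SIDE) (hF : Stmt_FAN) : Stmt_LV := by
  intro V G F hT r x a b ha hb hab
  have hlev : G.dist r a = G.dist r b := by
    have h1 := ha.2
    have h2 := hb.2
    omega
  obtain ⟨s, A, B, hA0, hB0, hs, hne, hA, hB⟩ := hD hT.conn r a b hlev
  have hs1 : 1 ≤ s := by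
    rcases Nat.eq_zero_or_pos s with h | h
    · subst h
      exfalso
      apply hab
      rw [← hA0, ← hB0]
      exact hs
    · exact h
  obtain ⟨A', hA'0, hA's⟩ : ∃ A' : ℕ → V, A' 0 = x ∧ ∀ t, A' (t + 1) = A t :=
    ⟨fun t => match t with | 0 => x | t + 1 => A t, rfl, fun _ => rfl⟩
  obtain ⟨B', hB'0, hB's⟩ : ∃ B' : ℕ → V, B' 0 = x ∧ ∀ t, B' (t + 1) = B t :=
    ⟨fun t => match t with | 0 => x | t + 1 => B t, rfl, fun _ => rfl⟩
  have hA'c : ∀ t < s + 1, Ch G r (A' (t + 1)) (A' t) := by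
    intro t ht
    rcases t with _ | t
    · rw [hA's, hA0, hA'0]; exact ha
    · rw [hA's, hA's]; exact hA t (by omega)
  have hB'c : ∀ t < s + 1, Ch G r (B' (t + 1)) (B' t) := by
    intro t ht
    rcases t with _ | t
    · rw [hB's, hB0, hB'0]; exact hb
    · rw [hB's, hB's]; exact hB t (by omega)
  have hne' : ∀ t, 1 ≤ t → t < s + 1 → A' t ≠ B' t := by
    intro t h1 h2
    obtain ⟨t, rfl⟩ : ∃ t', t = t' + 1 := ⟨t - 1, by omega⟩
    rw [hA's, hB's]
    exact hne t (by omega)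
  obtain ⟨S, hSF, hSA, hSB, hSbot, hS0, -⟩ := hP hT r (s + 1) 0 A' B' (by rw [hA's, hB's]; exact hs)
    hA'c hB'c hne' (Or.inl ⟨rfl, by rw [hA'0, hB'0], by omega⟩)
  obtain ⟨htop, hsum⟩ := hS0 rfl
  have hadjA : G.Adj (A' 0) (A' 1) := (hA'c 0 (by omega)).1.symm
  have hadjB : G.Adj (A' 0) (B' 1) := by
    have := (hB'c 0 (by omega)).1.symm
    rw [hB'0, ← hA'0] at this
    exact this
  have hsA := (hS hT r S (s + 1) A' hSF (by omega) hA'c
    ((htop _ hadjA).2 (Or.inl rfl)) hSA).1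
  have hsB := (hS hT r S (s + 1) B' hSF (by omega) hB'c
    (by rw [hB'0, ← hA'0]; exact (htop _ hadjB).2 (Or.inr rfl)) hSB).1
  have hbotne : A' s ≠ B' s := hne' s hs1 (by omega)
  have hbot1 : G.Adj (A' (s + 1)) (A' s) := (hA'c s (by omega)).1
  have hbot2 : G.Adj (A' (s + 1)) (B' s) := by
    have := (hB'c s (by omega)).1
    rwa [hB's, ← hs, ← hA's] at this
  obtain ⟨_, hav1, -⟩ := hF hT S (A' (s + 1)) (A' s) (B' s) hSF hbot1 hbot2 hbotne
    (by simpa using hSbot)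
  obtain ⟨g, hav2, hg0, hg1, hg⟩ := hF hT S (A' 0) (A' 1) (B' 1) hSF hadjA hadjB
    (hne' 1 le_rfl (by omega)) htop
  have hone : av S (A' 0) = 1 := by
    have h1 : (1 : ℤ) ≤ (av S (A' (s + 1)) : ℤ) := by exact_mod_cast hav1
    have h2 : (1 : ℤ) ≤ (av S (A' 0) : ℤ) := by exact_mod_cast hav2
    have h3 : (av S (A' 0) : ℤ) ≤ 1 := by linarith
    omega
  have h := (hg 0 (by omega)).1
  rw [hone] at hg1
  rw [hg0, zero_add, hg1, hA'0, hA's, hB's, hA0, hB0] at h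
  exact h

end

end Pool.TriLev.helper53
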