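import Pool.Agent.Work.MP_91103f_lv.Interface

namespace Pool.TriLev.helper53

open Pool.Agent.Work.MP_91103f_co Pool.TriLev

open Classical

noncomputable section

theorem stmt_UPF (hLV : Stmt_LV) (_hLH : Stmt_LH) (hLK : Stmt_LINK) : Stmt_UPF := by
  intro V G F hT r x y hxy hlev
  have hxr : x ≠ r := by
    rintro rfl
    rw [SimpleGraph.dist_self] at hlev
    have := (hT.conn.dist_eq_zero_iff (u := x) (v := y)).1 hlev.symm
    exact hxy.ne this
  obtain ⟨a, b, u, hab, hu, hdeg, ha, hch, hu1, hpar⟩ := hLK hT r x hxr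
  obtain ⟨k, hk, rfl⟩ := (hT.z_cycle hab).2.2 y hxy
  have hper := hT.z_per hab
  have hk' : k = 0 ∨ k = u + 1 := by
    rcases Nat.eq_zero_or_pos k with h0 | h0
    · exact Or.inl h0
    · right
      by_contra hne
      rcases Nat.lt_or_ge k (u + 1) with h1 | h1
      · have := (hch k h0 (by omega)).2
        omega
      · have := (hpar k (by omega) hk).2
        omega
  rcases hk' with rfl | rfl
  · have hf := hT.z_face hab 0
    rw [zero_add] at hf
    have hc1 := hch 1 le_rfl (by omega)
    refine ⟨z F x a b 1, hc1, ⟨hT.adj hf.swap.swap', by rw [← hlev]; exact hc1.2⟩, hf, ?_⟩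
    intro c' hc' hc''
    have h1 := hLV hT r c' x _ hc' hc'' hxy.ne
    -- T3 F c' x y -> T3 F x y c'
    have h2 : T3 F x (z F x a b 0) c' := h1.swap.swap'
    set d := (G.neighborSet x).ncard with hd
    have h3 : z F x a b (d - 1 + 1) = z F x a b 0 := by
      have := hper 0
      rw [zero_add] at this
      rw [show d - 1 + 1 = d by omega]
      exact this
    rw [← h3] at h2
    rcases hT.z_nb hab (d - 1) h2 with h4 | h4
    · have h5 := (hpar (d - 1) (by omega) (by omega)).2
      have h6 := hc'.2
      rw [h4] at h6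
      omega
    · rw [h4]
      have := hper 1
      rw [show d - 1 + 2 = 1 + d by omega]
      exact this
  · have hf := hT.z_face hab u
    have hc1 := hch u (by omega) le_rfl
    refine ⟨z F x a b u, hc1, ⟨hT.adj hf.swap'.swap.swap', by rw [← hlev]; exact hc1.2⟩,
      hf.swap', ?_⟩
    intro c' hc' hc''
    have h1 := hLV hT r c' x _ hc' hc'' hxy.ne
    have h2 : T3 F x (z F x a b (u + 1)) c' := h1.swap.swap'
    rcases hT.z_nb hab u h2 with h4 | h4
    · exact h4
    · have h5 := (hpar (u + 2) le_rfl (by omega)).2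
      have h6 := hc'.2
      rw [h4] at h6
      omega

end

end Pool.TriLev.helper53
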